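import Mathlib

/-!
# Disks and star cutsets: definitions
-/

set_option autoImplicit false

namespace Pool.Agent.H50.Disk

/-- The edges of the graph on `0, ..., 12`. -/
def edges : List (ℕ × ℕ) :=
  [(0, 1), (0, 4), (0, 6), (0, 8), (0, 9), (0, 10), (1, 2), (1, 6), (1, 7), (1, 9), (1, 12),
   (2, 3), (2, 7), (2, 8), (2, 10), (2, 12), (3, 4), (3, 5), (3, 8), (3, 10), (3, 11), (4, 5),
   (4, 7), (4, 11), (4, 12), (5, 7), (5, 8), (5, 11), (6, 7), (6, 9), (6, 10), (7, 8), (7, 10),
   (8, 9), (8, 12), (9, 12), (10, 11), (10, 12), (11, 12)]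

/-- The graph. -/
def G13 : SimpleGraph (Fin 13) :=
  SimpleGraph.fromRel fun i j => (i.val, j.val) ∈ edges

/-- `D` induces a hole (a chordless cycle of length at least five) or an antihole. -/
def IsDisk {V : Type} (G : SimpleGraph V) (D : Set V) : Prop :=
  ∃ n : ℕ, 5 ≤ n ∧ (Nonempty (G.induce D ≃g SimpleGraph.cycleGraph n) ∨
    Nonempty (Gᶜ.induce D ≃g SimpleGraph.cycleGraph n))

/-- The disk structure: disks, adjacent when distinct with at least two common vertices. -/
def diskStructure {V : Type} (G : SimpleGraph V) : SimpleGraph {D : Set V // IsDisk G D} where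
  Adj D D' := D ≠ D' ∧ 2 ≤ (D.1 ∩ D'.1).ncard
  symm := ⟨fun _ _ h => ⟨h.1.symm, by rw [Set.inter_comm]; exact h.2⟩⟩
  loopless := ⟨fun _ h => h.1 rfl⟩

/-- `S` is a star cutset (`G - S` is not connected; the empty graph counts as not connected). -/
def StarCutset {V : Type} (G : SimpleGraph V) (S : Set V) : Prop :=
  (∃ x ∈ S, ∀ y ∈ S, y ≠ x → G.Adj x y) ∧ ¬ (G.induce Sᶜ).Connected

end Pool.Agent.H50.Disk
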